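import Mathlib
import Pool.Agent.Helper203.Win.Fam
import Pool.Agent.H107.MetricFam
import Pool.Agent.W659.SA.Ext2

/-!
# Rational points on all hyperbolic subvarieties of `A × ℙⁿ`: boxes, rays, and approximations

`X` runs over ALL closed subvarieties of `A × ℙⁿ` over a number field `K`, `n ≥ 1`, which are (Brody or Kobayashi)
hyperbolic for some embedding of `K` in `ℂ`; here `A = E_1 × … × E_r` runs over the products of elliptic curves
`y² = x³ + a_i x` or `y² = x³ + b_i` with `a_i, b_i ∈ ℤ`, and `X` is the zero set of polynomials `G_e` with coefficients in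
`𝓞 K`, multihomogeneous in the coordinates of the plane cubics `E_i` and homogeneous in `x ∈ ℙⁿ`. Let `L ⊇ K` be a number
field of degree `N`; with an integral basis a vector `x ∈ (𝓞 L)^(n+1)` is a point of `ℤ^((n+1)N)`.

1. Let `v_k ≥ 1` be a sequence with exponent of convergence at most `τ` (`0` for `b ^ k`, `1 / c` for `k ^ c`) and `θ < 1`.
For all `α ∈ ℝ^((n+1)N)` outside one set of Hausdorff dimension at most `(n N + τ) / (1 - θ)` and all `X` and all large `k`,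
`X` has no `L`-rational point above the vectors `x` in the box with centre `α v_k` and side `2 v_k ^ θ`. For `0 ≤ θ < 1` and
all `α` outside one set of dimension at most `1 + n N / (1 - θ)` and all `X` there are only finitely many vectors `x`, with an
`L`-rational point of `X` above `x`, in the neighbourhood of the ray through `α` of radius `r ^ θ` at `r α`.
2. Let `K = ℚ` and `n = 1`. For every map `φ` of `ℚ` to a metric space `M`, for example `ℚ ⊂ ℝ` or `ℚ ⊂ ℚ_p`, there is a set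
`E` of Hausdorff dimension ZERO such that for all `z ∈ M` outside `E`, all `σ > 0` and ALL hyperbolic `X ⊆ A × ℙ¹`, there
are only finitely many rational numbers `t` with `dist (φ t) z ≤ H(t) ^ (-σ)` such that `X` has a rational point above `t`.
-/

set_option autoImplicit false

namespace Pool.Agent.Results.MP_627a61_nt.HyperbolicInWindows

open MvPolynomial NumberField Pool.Agent.W659 Pool.Agent.W659.SA Pool.Agent.Helper203.Win.Fam

/-- `X` has an `L`-rational point above the vector `x` -/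
def Above (K : Type) [Field K] {L : Type} [Field L] [NumberField L] [Algebra K L] {r n q : ℕ} (a b : Fin r → ℤ)
    (G : Fin q → Pol0 (𝓞 K) r n) (x : Fin n → L) : Prop :=
  ∃ V : Fin r → Fin 3 → L, (∀ i, FD.OnE (a i) (b i) (V i)) ∧ ∀ e, vl0 (toL K L) (G e) V x = 0

/-- `X` has an `L`-rational point above the vector `x ∈ (𝓞 L) ^ (n + 1)` with the coordinates `c` -/
def PointAbove (K : Type) [Field K] {L : Type} [Field L] [NumberField L] [Algebra K L] {N : ℕ}
    (ω : Module.Basis (Fin N) ℤ (𝓞 L)) {r n q : ℕ} (a b : Fin r → ℤ)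
    (G : Fin q → Pol0 (𝓞 K) r n) (c : Fin n × Fin N → ℤ) : Prop :=
  Above K a b G (fun i => ((vec ω c i : 𝓞 L) : L))

/-- `X` is of the form described above, and hyperbolic for some embedding of `K` in `ℂ` -/
def Hyperbolic {K : Type} [Field K] {r n q : ℕ} (a b : Fin r → ℤ) (G : Fin q → Pol0 (𝓞 K) r (n + 1)) : Prop :=
  (∀ i, a i * b i = 0 ∧ (a i ≠ 0 ∨ b i ≠ 0)) ∧
    (∀ e, ∃ (d : Fin r → ℕ) (k : ℕ), MHomog (G e) d ∧ XHomog (G e) k) ∧
    ∃ σ : K →+* ℂ, BrodyHyperbolic (m := 0) σ a b G (fun _ => 0)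

/-- the height of a rational number -/
def size (x : ℚ) : ℝ := ((max x.num.natAbs x.den : ℕ) : ℝ)

lemma one_le_size (x : ℚ) : 1 ≤ size x := by
  unfold size
  have : 1 ≤ max x.num.natAbs x.den := le_max_of_le_right x.pos
  exact_mod_cast this

/-- the library theorem for a hyperbolic variety -/
lemma ext {K : Type} [Field K] [NumberField K] {r n q : ℕ} (hn : 1 ≤ n) {a b : Fin r → ℤ}
    {G : Fin q → Pol0 (𝓞 K) r (n + 1)} (h : Hyperbolic a b G) (L : Type) [Field L] [NumberField L] [Algebra K L]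
    (N : ℕ) (ω : Module.Basis (Fin N) ℤ (𝓞 L)) : ∃ k' : ℕ,
    ∃ τ : ℝ, 0 < τ ∧ τ < 1 ∧ ∃ H₀ : ℕ, 3 ≤ H₀ ∧ ∀ H : ℕ, H₀ ≤ H →
      (∃ FF : Finset (MvPolynomial (Fin (n + 1)) L),
        (FF.card : ℝ) ≤ Real.exp ((Real.log H) ^ τ) ∧
        (∀ f ∈ FF, f ≠ 0 ∧ f.IsHomogeneous k') ∧
        ∀ c ∈ SolL K ω a b G H, ∃ f ∈ FF, eval (fun i => ((vec ω c i : 𝓞 L) : L)) f = 0) ∧
      (((SolL K ω a b G H).ncard : ℕ) : ℝ) ≤ Real.exp ((Real.log H) ^ τ) *
        ((k' : ℝ) * (2 * (H : ℝ) + 1) ^ (N * n)) := by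
  obtain ⟨hab, hG, σ, hyp⟩ := h
  choose d k hG using hG
  refine ⟨Finset.univ.sup k, ?_⟩
  exact hsExt K r n q a b hab G d k (Finset.univ.sup k) (fun e => Finset.le_sup (f := k) (Finset.mem_univ e))
    (fun e => (hG e).1) (fun e => (hG e).2) σ (fun V hV => by
    rcases hyp_cond σ hn a b G (fun _ : Fin 0 => 0) hyp V hV with h | ⟨e, _⟩
    · exact h
    · exact e.elim0) L N ω

lemma count {K : Type} [Field K] [NumberField K] {r n q : ℕ} (hn : 1 ≤ n) {a b : Fin r → ℤ}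
    {G : Fin q → Pol0 (𝓞 K) r (n + 1)} (h : Hyperbolic a b G) (L : Type) [Field L] [NumberField L] [Algebra K L]
    (N : ℕ) (ω : Module.Basis (Fin N) ℤ (𝓞 L)) : CountLe (PointAbove K ω a b G) ((n : ℝ) * N) := by
  intro ε hε
  obtain ⟨k', τ, hτ0, hτ1, H₀, hH3, h⟩ := ext hn h L N ω
  obtain ⟨C, hC0, hC⟩ := exp_le hτ0.le hτ1 hε
  refine ⟨C * (k' * 3 ^ (N * n)), H₀, fun H hH => ?_⟩
  have hH1 : (1 : ℝ) ≤ H := by
    have : 1 ≤ H := by omega
    exact_mod_cast this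
  have h2 : ((2 * (H : ℝ) + 1)) ^ (N * n) ≤ 3 ^ (N * n) * (H : ℝ) ^ ((n : ℝ) * N) := by
    have e1 : ((n : ℝ) * N) = ((N * n : ℕ) : ℝ) := by push_cast; ring
    rw [e1, Real.rpow_natCast, ← mul_pow]
    exact pow_le_pow_left₀ (by positivity) (by linarith) _
  calc (({c : Fin (n + 1) × Fin N → ℤ | (∀ i, |c i| ≤ (H : ℤ)) ∧ PointAbove K ω a b G c}.ncard : ℕ) : ℝ)
      ≤ Real.exp ((Real.log H) ^ τ) * ((k' : ℝ) * (2 * (H : ℝ) + 1) ^ (N * n)) := (h H hH).2
    _ ≤ (C * (H : ℝ) ^ ε) * (k' * (3 ^ (N * n) * (H : ℝ) ^ ((n : ℝ) * N))) := by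
        refine mul_le_mul (hC H (hH3.trans hH)) ?_ (by positivity) (by positivity)
        exact mul_le_mul_of_nonneg_left h2 (Nat.cast_nonneg _)
    _ = C * (k' * 3 ^ (N * n)) * (H : ℝ) ^ ((n : ℝ) * N + ε) := by
        rw [Real.rpow_add (by linarith)]
        ring

/-! ### Rational numbers -/

/-- an integral basis of `ℚ` -/
noncomputable def bQ : Module.Basis (Fin 1) ℤ (𝓞 ℚ) :=
  (Module.Basis.singleton (Fin 1) ℤ).map (Rat.ringOfIntegersEquiv.symm.toAddEquiv.toIntLinearEquiv)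

theorem bQ0 : bQ 0 = 1 := by
  unfold bQ
  simp

/-- the coordinates of `(num t, den t)` -/
def crd (t : ℚ) (p : Fin 2 × Fin 1) : ℤ := if p.1 = 0 then t.num else t.den

lemma vec_crd (t : ℚ) : (fun i => ((vec bQ (crd t) i : 𝓞 ℚ) : ℚ)) = ![(t.num : ℚ), (t.den : ℚ)] := by
  funext i
  unfold vec crd
  rw [Fin.sum_univ_one, bQ0]
  fin_cases i <;> simp

/-- a form of degree `k` in two variables has at most `k` rational zeros -/
lemma zeros {f : MvPolynomial (Fin 2) ℚ} (hf : f ≠ 0) {k : ℕ} (hk : f.IsHomogeneous k) :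
    {t : ℚ | eval ![(t.num : ℚ), (t.den : ℚ)] f = 0}.Finite ∧
      {t : ℚ | eval ![(t.num : ℚ), (t.den : ℚ)] f = 0}.ncard ≤ k := by
  classical
  set p : Polynomial ℚ := ∑ d ∈ f.support, Polynomial.C (coeff d f) * Polynomial.X ^ d 0 with hp
  have hdeg : ∀ d ∈ f.support, d 0 + d 1 = k := by
    intro d hd
    have h1 := hk (mem_support_iff.1 hd)
    rw [Finsupp.weight_apply, Finsupp.sum_fintype _ _ (by simp)] at h1
    simpa [Fin.sum_univ_two] using h1
  have hev : ∀ t y : ℚ, eval ![t * y, y] f = y ^ k * p.eval t := by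
    intro t y
    rw [eval_eq', hp, Polynomial.eval_finsetSum, Finset.mul_sum]
    refine Finset.sum_congr rfl fun d hd => ?_
    rw [Fin.prod_univ_two, ← hdeg d hd]
    simp only [Matrix.cons_val_zero, Matrix.cons_val_one, Polynomial.eval_mul, Polynomial.eval_C,
      Polynomial.eval_pow, Polynomial.eval_X]
    ring
  have hp0 : p ≠ 0 := by
    intro h0
    apply hf
    have h1 : f * X 1 = 0 := by
      apply MvPolynomial.funext
      intro x
      rw [map_mul, eval_X, map_zero]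
      by_cases hx : x 1 = 0
      · rw [hx, mul_zero]
      · have h2 := hev (x 0 / x 1) (x 1)
        rw [h0, Polynomial.eval_zero, mul_zero, div_mul_cancel₀ _ hx] at h2
        have h3 : (![x 0, x 1] : Fin 2 → ℚ) = x := by
          funext i
          fin_cases i <;> rfl
        rw [h3] at h2
        rw [h2, zero_mul]
    exact (mul_eq_zero.1 h1).resolve_right (X_ne_zero _)
  have hnd : p.natDegree ≤ k := by
    refine Polynomial.natDegree_sum_le_of_forall_le _ _ fun d hd => ?_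
    refine (Polynomial.natDegree_C_mul_X_pow_le _ _).trans ?_
    have := hdeg d hd
    omega
  have hsub : {t : ℚ | eval ![(t.num : ℚ), (t.den : ℚ)] f = 0} ⊆ (p.roots.toFinset : Set ℚ) := by
    intro t ht
    rw [Finset.mem_coe, Multiset.mem_toFinset, Polynomial.mem_roots hp0, Polynomial.IsRoot.def]
    have hden : (t.den : ℚ) ≠ 0 := by exact_mod_cast t.den_nz
    have h1 := hev t t.den
    have ht' : eval ![(t.num : ℚ), (t.den : ℚ)] f = 0 := ht
    rw [Rat.mul_den_eq_num, ht'] at h1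
    exact (mul_eq_zero.1 h1.symm).resolve_left (pow_ne_zero _ hden)
  refine ⟨(Finset.finite_toSet _).subset hsub, ?_⟩
  refine (Set.ncard_le_ncard hsub (Finset.finite_toSet _)).trans ?_
  rw [Set.ncard_coe_finset]
  exact (Multiset.toFinset_card_le _).trans ((Polynomial.card_roots' p).trans hnd)

lemma countQ {r q : ℕ} {a b : Fin r → ℤ} {G : Fin q → Pol0 (𝓞 ℚ) r (1 + 1)} (h : Hyperbolic a b G) (ε : ℝ)
    (hε : 0 < ε) : ∃ C : ℝ, ∀ X : ℝ, 1 ≤ X →
      {t : ℚ | Above ℚ a b G ![(t.num : ℚ), (t.den : ℚ)] ∧ size t ≤ X}.Finite ∧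
      ({t : ℚ | Above ℚ a b G ![(t.num : ℚ), (t.den : ℚ)] ∧ size t ≤ X}.ncard : ℝ) ≤ C * X ^ ((0 : ℝ) + ε) := by
  classical
  obtain ⟨k', τ, hτ0, hτ1, H₀, hH3, h⟩ := ext le_rfl h ℚ 1 bQ
  obtain ⟨C, hC0, hC⟩ := exp_le hτ0.le hτ1 hε
  refine ⟨C * ((H₀ : ℝ) + 1) ^ ε * k', fun X hX => ?_⟩
  set H : ℕ := max ⌊X⌋₊ H₀ with hH
  obtain ⟨⟨FF, h1, h2, h3⟩, -⟩ := h H (le_max_right _ _)
  have hsub : {t : ℚ | Above ℚ a b G ![(t.num : ℚ), (t.den : ℚ)] ∧ size t ≤ X} ⊆
      ⋃ f ∈ FF, {t : ℚ | eval ![(t.num : ℚ), (t.den : ℚ)] f = 0} := by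
    rintro t ⟨ht, hs⟩
    have hbox : crd t ∈ SolL ℚ bQ a b G H := by
      refine ⟨fun i => ?_, ?_⟩
      · have h4 : max t.num.natAbs t.den ≤ H := (Nat.le_floor hs).trans (le_max_left _ _)
        unfold crd
        split_ifs
        · rw [← Int.natCast_natAbs]
          exact_mod_cast (le_max_left _ _).trans h4
        · rw [Nat.abs_cast]
          exact_mod_cast (le_max_right _ _).trans h4
      · obtain ⟨V, hV, hG⟩ := ht
        refine ⟨V, hV, fun e => ?_⟩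
        rw [vec_crd]
        exact hG e
    obtain ⟨f, hf, hf0⟩ := h3 _ hbox
    rw [vec_crd] at hf0
    exact Set.mem_iUnion₂.2 ⟨f, hf, hf0⟩
  have hfin : (⋃ f ∈ FF, {t : ℚ | eval ![(t.num : ℚ), (t.den : ℚ)] f = 0}).Finite :=
    FF.finite_toSet.biUnion fun f hf => (zeros (h2 f hf).1 (h2 f hf).2).1
  refine ⟨hfin.subset hsub, ?_⟩
  have h4 : {t : ℚ | Above ℚ a b G ![(t.num : ℚ), (t.den : ℚ)] ∧ size t ≤ X}.ncard ≤ FF.card * k' := by
    refine (Set.ncard_le_ncard hsub hfin).trans ?_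
    refine (Finset.set_ncard_biUnion_le _ _).trans ?_
    rw [← smul_eq_mul]
    exact Finset.sum_le_card_nsmul _ _ _ fun f hf => (zeros (h2 f hf).1 (h2 f hf).2).2
  have h5 : (H : ℝ) ≤ ((H₀ : ℝ) + 1) * X := by
    have h0 : (0 : ℝ) ≤ H₀ := Nat.cast_nonneg _
    rw [hH]
    push_cast
    refine max_le ?_ ?_
    · have : ((⌊X⌋₊ : ℕ) : ℝ) ≤ X := Nat.floor_le (by linarith)
      nlinarith
    · nlinarith
  calc (({t : ℚ | Above ℚ a b G ![(t.num : ℚ), (t.den : ℚ)] ∧ size t ≤ X}.ncard : ℕ) : ℝ)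
      ≤ ((FF.card * k' : ℕ) : ℝ) := by exact_mod_cast h4
    _ = FF.card * k' := by push_cast; ring
    _ ≤ (C * (((H₀ : ℝ) + 1) * X) ^ ε) * k' := by
        refine mul_le_mul_of_nonneg_right ?_ (Nat.cast_nonneg _)
        refine (h1.trans (hC H (hH3.trans (le_max_right _ _)))).trans ?_
        exact mul_le_mul_of_nonneg_left (Real.rpow_le_rpow (Nat.cast_nonneg _) h5 hε.le) hC0.le
    _ = C * ((H₀ : ℝ) + 1) ^ ε * k' * X ^ ((0 : ℝ) + ε) := by
        rw [Real.mul_rpow (by positivity) (by linarith), zero_add]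
        ring

/-- the data that define `X` -/
abbrev Data (K : Type) [Field K] (n : ℕ) : Type :=
  (t : ℕ × ℕ) × ((Fin t.1 → ℤ) × (Fin t.1 → ℤ)) × (Fin t.2 → Pol0 (𝓞 K) t.1 n)

theorem countable_data (K : Type) [Field K] [NumberField K] (n : ℕ) : Countable (Data K n) := by
  have := cO K
  have h : ∀ r : ℕ, Countable (Pol0 (𝓞 K) r n) := fun r => cMv _ _
  infer_instance

/-- **Rational points on all hyperbolic subvarieties of `A × ℙⁿ`: boxes, rays, and approximations**; the sequences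
`(k + 1) ^ c` and `b ^ k` have exponent of convergence `1 / c` and `0`. -/
theorem result :
    (∀ (K : Type) [Field K] [NumberField K] (L : Type) [Field L] [NumberField L] [Algebra K L] (N : ℕ)
      (ω : Module.Basis (Fin N) ℤ (𝓞 L)) (n : ℕ), 1 ≤ n →
      (∀ (v : ℕ → ℝ) (τ θ : ℝ), (∀ k, 1 ≤ v k) → 0 ≤ τ → ExpLe v τ → θ < 1 →
        ∃ Z : Set (Fin (n + 1) × Fin N → ℝ), dimH Z ≤ ENNReal.ofReal (((n : ℝ) * N + τ) / (1 - θ)) ∧
          ∀ α : Fin (n + 1) × Fin N → ℝ, α ∉ Z → ∀ (r q : ℕ) (a b : Fin r → ℤ) (G : Fin q → Pol0 (𝓞 K) r (n + 1)),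
            Hyperbolic a b G → NoneInBoxes (PointAbove K ω a b G) v θ α) ∧
      (∀ θ : ℝ, 0 ≤ θ → θ < 1 → ∃ Z : Set (Fin (n + 1) × Fin N → ℝ),
        dimH Z ≤ ENNReal.ofReal (1 + (n : ℝ) * N / (1 - θ)) ∧
          ∀ α : Fin (n + 1) × Fin N → ℝ, α ∉ Z → ∀ (r q : ℕ) (a b : Fin r → ℤ) (G : Fin q → Pol0 (𝓞 K) r (n + 1)),
            Hyperbolic a b G → FewNearRay (PointAbove K ω a b G) θ α)) ∧
    (∀ (M : Type) [MetricSpace M] (φ : ℚ → M), ∃ E : Set M, dimH E = 0 ∧ ∀ z ∉ E, ∀ σ : ℝ, 0 < σ →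
      ∀ (r q : ℕ) (a b : Fin r → ℤ) (G : Fin q → Pol0 (𝓞 ℚ) r (1 + 1)), Hyperbolic a b G →
        {t : ℚ | Above ℚ a b G ![(t.num : ℚ), (t.den : ℚ)] ∧ dist (φ t) z ≤ size t ^ (-σ)}.Finite) ∧
    (∀ c : ℝ, 0 < c → ExpLe (fun k : ℕ => ((k : ℝ) + 1) ^ c) (1 / c)) ∧
    (∀ b : ℝ, 1 < b → ExpLe (fun k : ℕ => b ^ k) 0) := by
  classical
  refine ⟨?_, ?_, Pool.Agent.V35.WM.expLe_pow, Pool.Agent.V35.WM.expLe_geom⟩
  · intro K _ _ L _ _ _ N ω n hn
    have := countable_data K (n + 1)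
    have hs : (0 : ℝ) ≤ (n : ℝ) * N := by positivity
    refine ⟨fun v τ θ hpos hτ hv hθ => ?_, fun θ hθ0 hθ => ?_⟩
    · obtain ⟨Z, hZ, h⟩ := windows (fun j : Data K (n + 1) => PointAbove K ω j.2.1.1 j.2.1.2 j.2.2) hs hpos hτ hv hθ
      exact ⟨Z, hZ, fun α hα r q a b G hG => h α hα ⟨(r, q), (a, b), G⟩ (count hn hG L N ω)⟩
    · obtain ⟨Z, hZ, h⟩ := rays (fun j : Data K (n + 1) => PointAbove K ω j.2.1.1 j.2.1.2 j.2.2) hs hθ0 hθ
      exact ⟨Z, hZ, fun α hα r q a b G hG => h α hα ⟨(r, q), (a, b), G⟩ (count hn hG L N ω)⟩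
  · intro M _ φ
    have := countable_data ℚ (1 + 1)
    set S : Data ℚ (1 + 1) → Set ℚ := fun j => if Hyperbolic (n := 1) j.2.1.1 j.2.1.2 j.2.2 then
      {t : ℚ | Above ℚ j.2.1.1 j.2.1.2 j.2.2 ![(t.num : ℚ), (t.den : ℚ)]} else ∅ with hS
    have hcount : ∀ j : Data ℚ (1 + 1), ∀ ε : ℝ, 0 < ε → ∃ C : ℝ, ∀ X : ℝ, 1 ≤ X →
        {t | t ∈ S j ∧ size t ≤ X}.Finite ∧ ({t | t ∈ S j ∧ size t ≤ X}.ncard : ℝ) ≤ C * X ^ ((0 : ℝ) + ε) := by
      intro j ε hε
      simp only [hS]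
      split_ifs with hj
      · exact countQ hj ε hε
      · refine ⟨0, fun X hX => ?_⟩
        simp
    have hall := fun i : ℕ => Pool.Agent.H107.ME.dim_family φ size one_le_size le_rfl
      (show (0 : ℝ) < 1 / ((i : ℝ) + 1) by positivity) S hcount
    choose E hE h using hall
    refine ⟨⋃ i, E i, ?_, fun z hz σ hσ r q a b G hG => ?_⟩
    · rw [dimH_iUnion]
      refine le_antisymm (iSup_le fun i => ?_) bot_le
      have := hE i
      rwa [zero_div, ENNReal.ofReal_zero] at this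
    · obtain ⟨i, hi⟩ := exists_nat_one_div_lt hσ
      refine (h i z (fun hzi => hz (Set.mem_iUnion.2 ⟨i, hzi⟩)) ⟨(r, q), (a, b), G⟩).subset ?_
      rintro t ⟨h1, h2⟩
      refine ⟨?_, h2.trans (Real.rpow_le_rpow_of_exponent_le (one_le_size t) (by linarith))⟩
      simp only [hS]
      rw [if_pos hG]
      exact h1

end Pool.Agent.Results.MP_627a61_nt.HyperbolicInWindows
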