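import Mathlib
import Pool.Agent.V11322.NR.ConvC

set_option autoImplicit false

/-!
# Algebraic points of arbitrary degree with small multipliers on hyperbolic varieties

Let `X` be the closed subset of projective `n`-space over a number field `k` given by the forms
`P_1, …, P_N`, of degree at most `d`, and let `σ` be an embedding of `k` in `ℂ`.

(1) If `X_σ` is Brody (equivalently Kobayashi) hyperbolic, then `X_σ` contains no nonconstant
rational curve.

(2) The following are equivalent: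

* `X_σ` contains no nonconstant rational curve;
* for every `r`, ALL fields `L ⊇ k` and ALL vectors `v_1, …, v_r` over `L`, at most `B(d, r)` points of
  `X(L)` have the form `x = t_1 v_1 + … + t_r v_r` with algebraic numbers `t_j` of ARBITRARY degree and
  `h(t_1 : … : t_r) < eps(d, r)` (for instance roots of unity). Here `B(d, r)` and `eps(d, r) > 0` are
  explicit and independent of `X`, of `n` and `N`, of the coefficients, of `L` and of the `v_j`;
* for every `r` and every finitely generated group `Γ` of algebraic numbers there are constants `A`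
  and `e` such that for ALL vectors `V_1, …, V_r` of algebraic numbers the points of `X` over the
  algebraic closure, of arbitrary degree, of the form `x = u_1 s_1 V_1 + … + u_r s_r V_r`, where the
  `u_j` are algebraic numbers with a power in `Γ` and `h(s_1 : … : s_r) < eps(d, r) / 2`, are finite in
  number, at most `A (1 + h(V)) ^ e`;
* for all `r` and all vectors `V_0, …, V_(r-1)` of algebraic numbers, only finitely many points of the
  form `V_0 + ζ V_1 + … + ζ ^ (r - 1) V_(r-1)`, `ζ` a root of unity, lie on `X`.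

The proof of the two finiteness statements is in `Pool/Agent/Y215` (equidistribution free: auxiliary
polynomials and Frobenius for small multipliers, a subspace theorem with moving coefficients for
`Γ`); the passage from `ℂ` to all extensions is due to projects `TH409` and `TH717`.
-/

namespace Pool.Agent.Results.MP_627a61_nt.SmallMultipliers

open MvPolynomial Pool.Agent.Helper259.AbsHt Pool.Agent.H533R3.SL Pool.Agent.H458.Sp
open Pool.Agent.TH717.GO (NoRatC)

/-- the bound for the heights of the multipliers -/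
noncomputable def eps (d r : ℕ) : ℝ := Pool.Agent.Y215.SP.epsn ((d + 1) ^ r) / d

/-- the bound for the number of points -/
noncomputable def B (d r : ℕ) : ℕ := 2 ^ r * Pool.Agent.Y215.SP.M0 ((d + 1) ^ r) d r

variable {n N r : ℕ} {k : Type} [Field k]

/-- the points over `L` on `P = 0` with homogeneous coordinates `∑ t_j v_j`, for algebraic numbers
`t_j` with `h(t_1 : … : t_r) < ε` -/
def smallPts {L : Type} [Field L] [Algebra k L] (ι : Qbar →+* L)
    (P : Fin N → MvPolynomial (Fin (n + 1)) k) (ε : ℝ) (v : Fin r → Fin (n + 1) → L) :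
    Set (Projectivization L (Fin (n + 1) → L)) :=
  {p | ∃ t : Fin r → Qbar, absLogHeight t < ε ∧
    ∃ (x : Fin (n + 1) → L) (hx : x ≠ 0), (∀ a, x a = ∑ j, ι (t j) * v j a) ∧
      (∀ i, aeval x (P i) = 0) ∧ p = Projectivization.mk L x hx}

/-- the algebraic points on `P = 0` with homogeneous coordinates `∑ u_j s_j V_j`, for algebraic
numbers `u_j` with a power in `Γ` and `s_j` with `h(s_1 : … : s_r) < ε` -/
def nearPts [Algebra k Qbar] (P : Fin N → MvPolynomial (Fin (n + 1)) k) (Γ : Subgroup Qbarˣ)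
    (ε : ℝ) (V : Fin r → Fin (n + 1) → Qbar) : Set (Projectivization Qbar (Fin (n + 1) → Qbar)) :=
  {p | ∃ (u : Fin r → Qbarˣ) (s : Fin r → Qbar), (∀ j, ∃ m : ℕ, 0 < m ∧ u j ^ m ∈ Γ) ∧
    absLogHeight s < ε ∧
    ∃ (x : Fin (n + 1) → Qbar) (hx : x ≠ 0), (∀ a, x a = ∑ j, (u j : Qbar) * (s j * V j a)) ∧
      (∀ i, aeval x (P i) = 0) ∧ p = Projectivization.mk Qbar x hx}

/-- the algebraic points on `P = 0` with homogeneous coordinates `∑ ζ ^ j V_j`, `ζ` a root of
unity -/
def rootPts [Algebra k Qbar] (P : Fin N → MvPolynomial (Fin (n + 1)) k)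
    (V : Fin r → Fin (n + 1) → Qbar) : Set (Projectivization Qbar (Fin (n + 1) → Qbar)) :=
  {p | ∃ ζ : Qbar, (∃ m : ℕ, 0 < m ∧ ζ ^ m = 1) ∧
    ∃ (x : Fin (n + 1) → Qbar) (hx : x ≠ 0), (∀ a, x a = ∑ j : Fin r, ζ ^ (j : ℕ) * V j a) ∧
      (∀ i, aeval x (P i) = 0) ∧ p = Projectivization.mk Qbar x hx}

/-- there are at most `B(d, r)` points with `r` multipliers of height less than `eps(d, r)` -/
def UniformBound (P : Fin N → MvPolynomial (Fin (n + 1)) k) (d : ℕ) : Prop :=
  ∀ (r : ℕ) (L : Type) [Field L] [Algebra k L] (ι : Qbar →+* L) (v : Fin r → Fin (n + 1) → L),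
    (smallPts ι P (eps d r) v).encard ≤ B d r

/-- finitely many algebraic points near the sums of `r` elements of a group of finite rank, with a
polynomial bound -/
def NearFinite (P : Fin N → MvPolynomial (Fin (n + 1)) k) (d : ℕ) : Prop :=
  ∀ (r : ℕ) [Algebra k Qbar] (Γ : Subgroup Qbarˣ), Γ.FG → ∃ (A : ℝ) (e : ℕ),
    ∀ V : Fin r → Fin (n + 1) → Qbar, (nearPts P Γ (eps d r / 2) V).Finite ∧
      ((nearPts P Γ (eps d r / 2) V).ncard : ℝ) ≤
        A * (1 + absLogHeight fun q : Fin r × Fin (n + 1) => V q.1 q.2) ^ e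

/-- finitely many points `∑ ζ ^ j V_j`, `ζ` a root of unity -/
def RootsFinite (P : Fin N → MvPolynomial (Fin (n + 1)) k) : Prop :=
  ∀ (r : ℕ) [Algebra k Qbar] (V : Fin r → Fin (n + 1) → Qbar), (rootPts P V).Finite

theorem eps_pos (d r : ℕ) (hd : 1 ≤ d) : 0 < eps d r :=
  div_pos (Pool.Agent.Y215.SP.epsn_pos _ (Nat.one_le_pow _ _ (by omega)))
    (by exact_mod_cast hd)

theorem smallPts_sub {L : Type} [Field L] [Algebra k L] (ι : Qbar →+* L)
    (P : Fin N → MvPolynomial (Fin (n + 1)) k) (ε : ℝ) (v : Fin r → Fin (n + 1) → L) :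
    smallPts ι P ε v ⊆ Pool.Agent.Y215.SP.smallOff ι P 1 ε v := by
  rintro p ⟨t, ht, x, hx, hxe, hP, rfl⟩
  have e : x = Pool.Agent.Y215.SP.pt ι v t := funext hxe
  subst e
  exact ⟨t, ht, hP, by rw [map_one]; exact one_ne_zero, hx, rfl⟩

theorem nearPts_sub [Algebra k Qbar] (P : Fin N → MvPolynomial (Fin (n + 1)) k)
    (Γ : Subgroup Qbarˣ) (ε : ℝ) (V : Fin r → Fin (n + 1) → Qbar) :
    nearPts P Γ ε V ⊆ Pool.Agent.Y215.SK.mixPts P 1 Γ ε V := by
  rintro p ⟨u, s, hu, hs, x, hx, hxe, hP, rfl⟩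
  have e : x = Pool.Agent.Y215.SK.psum Finset.univ u (fun j a => s j * V j a) := funext hxe
  subst e
  exact ⟨u, s, hu, hs, ⟨hx, hP, by rw [map_one]; exact one_ne_zero⟩, hx, rfl⟩

theorem zPts_sub_root [Algebra k Qbar] (P : Fin N → MvPolynomial (Fin (n + 1)) k)
    (V : Fin r → Fin (n + 1) → Qbar) :
    Pool.Agent.V11322.NR.zPts P 1 V ⊆ rootPts P V := by
  rintro p ⟨ζ, hζ, hP, -, hx, rfl⟩
  exact ⟨ζ, hζ, _, hx, fun a => rfl, hP, rfl⟩

theorem root_sub_small [Algebra k Qbar] (P : Fin N → MvPolynomial (Fin (n + 1)) k)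
    (V : Fin r → Fin (n + 1) → Qbar) (ε : ℝ) (hε : 0 < ε) :
    rootPts P V ⊆ smallPts (RingHom.id Qbar) P ε V := by
  rintro p ⟨ζ, ⟨m, hm, hζ⟩, x, hx, hxe, hP, rfl⟩
  refine ⟨fun j => ζ ^ (j : ℕ), ?_, x, hx, hxe, hP, rfl⟩
  rw [Pool.Agent.V11322.NR.height_tors (fun j : Fin r => ζ ^ (j : ℕ)) m hm fun j => by
    rw [← pow_mul, mul_comm, pow_mul, hζ, one_pow]]
  exact hε

theorem root_sub_near [Algebra k Qbar] (P : Fin N → MvPolynomial (Fin (n + 1)) k)
    (V : Fin r → Fin (n + 1) → Qbar) (Γ : Subgroup Qbarˣ) (ε : ℝ) (hε : 0 < ε) :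
    rootPts P V ⊆ nearPts P Γ ε V := by
  rintro p ⟨ζ, ⟨m, hm, hζ⟩, x, hx, hxe, hP, rfl⟩
  refine ⟨fun _ => 1, fun j => ζ ^ (j : ℕ), fun j => ⟨1, one_pos, by simp [Γ.one_mem]⟩, ?_,
    x, hx, fun a => ?_, hP, rfl⟩
  · rw [Pool.Agent.V11322.NR.height_tors (fun j : Fin r => ζ ^ (j : ℕ)) m hm fun j => by
      rw [← pow_mul, mul_comm, pow_mul, hζ, one_pow]]
    exact hε
  · rw [hxe a]
    simp

theorem result (k : Type) [Field k] [NumberField k] (σ : k →+* ℂ) (n N : ℕ)
    (P : Fin N → MvPolynomial (Fin (n + 1)) k) (d : ℕ) (hd : 1 ≤ d)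
    (hP : ∀ i, ∃ e, e ≤ d ∧ (P i).IsHomogeneous e) :
    (∀ r, 0 < eps d r) ∧
    (BrodyHyperbolic ((MvPolynomial.map σ) '' Set.range P) → NoRatC σ (Set.range P)) ∧
    List.TFAE [NoRatC σ (Set.range P), UniformBound P d, NearFinite P d, RootsFinite P] := by
  refine ⟨fun r => eps_pos d r hd, fun hyp => ?_, ?_⟩
  · intro q hq i j a b
    refine Pool.Agent.TH409.SH.no_curveC' _ ?_ hyp q ?_ i j a b
    · rintro _ ⟨F, ⟨i, rfl⟩, rfl⟩
      obtain ⟨e, _, he⟩ := hP i
      exact ⟨e, he.map _⟩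
    · rintro _ ⟨F, hF, rfl⟩
      rw [aeval_def, MvPolynomial.eval₂_map]
      exact hq F hF
  · tfae_have 1 → 2 := by
      intro hno r L _ _ ι v
      refine (Set.encard_le_encard (smallPts_sub ι P _ v)).trans ?_
      exact Pool.Agent.Y215.SP.card_smallOff P d hd hP 1 (fun c l hz hc => by
        obtain ⟨i, i', h⟩ := hc
        exact absurd (Pool.Agent.V11322.NR.const_of_noRatC σ P hno L c l hz i i') h) ι v
    tfae_have 1 → 3 := by
      intro hno r _ Γ hΓ
      obtain ⟨A, e, h⟩ := Pool.Agent.Y215.SK.mix_finite (r := r) P d hd hP 1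
        ⟨0, MvPolynomial.isHomogeneous_one _ _⟩ (fun L _ _ c l hz hc => by
          obtain ⟨i, i', h⟩ := hc
          exact absurd (Pool.Agent.V11322.NR.const_of_noRatC σ P hno L c l hz i i') h) Γ hΓ
      refine ⟨A, e, fun V => ?_⟩
      have hsub := nearPts_sub P Γ (eps d r / 2) V
      refine ⟨(h V).1.subset hsub, le_trans ?_ (h V).2⟩
      exact_mod_cast Set.ncard_le_ncard hsub (h V).1
    tfae_have 2 → 4 := by
      intro h r _ V
      exact (Set.finite_of_encard_le_coe (h r Qbar (RingHom.id Qbar) V)).subset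
        (root_sub_small P V _ (eps_pos d r hd))
    tfae_have 3 → 4 := by
      intro h r _ V
      obtain ⟨A, e, h1⟩ := h r ⊥ ⟨∅, by simp⟩
      exact (h1 V).1.subset (root_sub_near P V _ _ (half_pos (eps_pos d r hd)))
    tfae_have 4 → 1 := by
      intro h
      by_contra hno
      obtain ⟨r, alg, V, hV⟩ := Pool.Agent.V11322.NR.tors_of_ratC σ P hno
      exact hV ((h r V).subset (zPts_sub_root P V))
    tfae_finish

end Pool.Agent.Results.MP_627a61_nt.SmallMultipliers
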