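import Pool.Agent.V1153.UR.NumB

/-!
# Points given by iterated recurrences on hyperbolic varieties of bounded degree over number fields

Let `X` be a closed subset of the projective space of dimension `n` over a number field `k`, given by
forms of degree at most `D`, and let `G` be a form of degree at most `D` over `k`, for instance
`G = 1`. Let `σ` be an embedding of `k` in the complex numbers. We consider the following properties.

(1) All nonconstant rational curves in `X_σ` are contained in `G = 0`.

(2) For all `s, r, e`, all fields `L` which contain `k` and can be embedded in the complex numbers, all
groups `H` and all families `x(h)`, `h ∈ H`, of points of `X(L)` given by iterated recurrences of type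
`(s, r, e)`, at most `B(s, r, e)` different points are outside of `G = 0`. The bound `B(s, r, e)`
depends on `n`, `D` and the type only.

(3) The sequences of points of `X` over number fields with homogeneous coordinates which are
polynomials in `u ^ h` and `u ^ (-h)`, `h ∈ ℤ`, for a number `u`, have finitely many points outside of
`G = 0`.

(4) All nonconstant meromorphic maps from all affine spaces `ℂ^m` to `X_σ`, with homogeneous
coordinates which are sums of products of polynomials and exponentials of entire functions, have
images in `G = 0`.

These properties are equivalent. They hold if all nonconstant entire curves in `X_σ` are contained in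
`G = 0`. In particular, for all Kobayashi hyperbolic varieties `X ⊆ ℙⁿ` given by forms of degree at
most `D` over all number fields, the number of points in families of type `(s, r, e)`, for example in
the orbits of a point under groups of matrices of size `r`, is at most `B(s, r, e)`.
-/

set_option autoImplicit false

namespace Pool.Agent.Results.MP_627a61_nt.UniformFamilies

open MvPolynomial Pool.Agent.V1153.UR

/-- For all `n` and `D` there is a function `B` such that for all number fields `k`, all embeddings
`σ` of `k` in `ℂ`, all sets `FF` of forms of degree at most `D` in `n + 1` variables over `k` and all
forms `G` of degree at most `D` over `k`, for the projective variety `X` with the equations `FF`: if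
all nonconstant entire curves in `X_σ` are contained in `G = 0`, then so are all nonconstant rational
curves in `X_σ`; and this is equivalent to each of the following properties. The families of points of
`X` given by iterated recurrences of type `(s, r, e)` have at most `B s r e` different points outside
of `G = 0`. The sequences of points over number fields, given by polynomials in the powers `u ^ h`,
have finitely many points outside of `G = 0`. The meromorphic maps from affine spaces to `X_σ`, given
by sums of products of polynomials and exponentials of entire functions, are constant or contained in
`G = 0`. -/
theorem result (n D : ℕ) : ∃ B : ℕ → ℕ → ℕ → ℕ, ∀ (k : Type) [Field k] [NumberField k]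
    (σ : k →+* ℂ) (FF : Set (MvPolynomial (Fin (n + 1)) k)) (G : MvPolynomial (Fin (n + 1)) k),
    (∀ F ∈ FF, ∃ a ≤ D, F.IsHomogeneous a) → (∃ a ≤ D, G.IsHomogeneous a) →
      (BrodyIn σ FF G → RatIn σ FF G) ∧
      List.TFAE [RatIn σ FF G, FamBound FF G B, SeqFinite σ FF G, ExpIn σ FF G] := by
  obtain ⟨B, hB⟩ := fam_bound n D
  refine ⟨B, fun k _ _ σ FF G hFF hG => ?_⟩
  have hom : ∀ F ∈ FF, ∃ a, F.IsHomogeneous a := fun F hF => by
    obtain ⟨a, -, ha⟩ := hFF F hF
    exact ⟨a, ha⟩
  obtain ⟨γ, -, hγ⟩ := id hG
  refine ⟨brody_rat hom hγ, ?_⟩
  tfae_have 1 → 2 := hB k σ FF G hFF hG
  tfae_have 2 → 3 := seq_of_fam
  tfae_have 3 → 1 := rat_of_seq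
  tfae_have 1 → 4 := rat_exp hom hγ
  tfae_have 4 → 1 := exp_rat
  tfae_finish

end Pool.Agent.Results.MP_627a61_nt.UniformFamilies
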