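import Pool.Agent.Results.MP_627a61_nt.AlmostAllCovers
import Pool.Agent.V35.WB

/-!
# Windows of finite covers of products of CM elliptic curves without any point over a number field

`A = E₁ × ⋯ × E_r`, `Eᵢ : y² = x³ + aᵢ x + bᵢ`; `X_c : w^d + s₁ w^(d-1) + ⋯ + s_d = 0`, where `s_k` runs through the
sections of `O(k m (O₁ + ⋯ + O_r))` with integer coefficients (`J = ∑ (k m)^r` coefficients `c` in all). `X_c` is finite of
degree `d` over `A`. Let `v_n ≥ 1` be a sequence with exponent of convergence at most `τ` (`0` for `v_n = x ^ n`, `1 / κ` for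
`v_n = (n + 1) ^ κ`) and `θ < 1`. For all `α ∈ ℝ ^ J` outside a set of Hausdorff dimension at most
`(J - 1 / 5 + τ) / (1 - θ)`, which is a null set if `θ < (1 / 5 - τ) / J`, and all large `n` NONE of the varieties `X_c` with
`|c - α v_n| ≤ v_n ^ θ` has a point over the number field `K`.

* `MonW n` : the exponents `(i, j)`, `j ≤ 1`, `2i + 3j ≤ n`, of the basis `x^i y^j` of `L(n O)`;
* `sec c k X Y Z` : the section `s_(k+1)` in weighted homogeneous coordinates;
* `HasPointD K a b c` : `X_c` has a point over `K` (points over the points at infinity included).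
-/

set_option autoImplicit false

open MeasureTheory

namespace Pool.Agent.Results.MP_627a61_nt.WindowsOfCovers

open Pool.Agent.H925R3.DC Pool.Agent.H925R3.DD Pool.Agent.V35.WM Pool.Agent.V35.WB

/-- **Theorem.** `WindowsFree P s` says: for all sequences `v ≥ 1` of exponent of convergence at most `τ ≥ 0` and all
`θ < 1` there is a set `E` of real vectors, of Hausdorff dimension at most `(s + τ) / (1 - θ)` and of Lebesgue measure zero
if `θ < 1 - (s + τ) / J`, `J` the number of the coordinates, such that for all `α` outside `E` and all large `n` no integral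
vector `c` with the property `P` satisfies `‖c - v_n • α‖ ≤ v_n ^ θ`. -/
theorem result :
    -- general form: a number field `K` which embeds in `ℚ_p` and curves which have `p` affine points modulo `p`, for every
    -- prime `p ≡ β mod M`, `p ∤ D`
    (∀ (K : Type) [Field K] [NumberField K] (r m d : ℕ), 1 ≤ r → 2 ≤ m → 2 ≤ d →
      ∀ (a b : Fin r → ℤ) (M D : ℕ) (β : ℤ), 0 < M → 0 < D → IsCoprime β (M : ℤ) →
      (∀ i, 4 * a i ^ 3 + 27 * b i ^ 2 ≠ 0) →
      (∀ (p : ℕ) [Fact p.Prime], ¬ p ∣ D → (M : ℤ) ∣ (p : ℤ) - β → Nonempty (K →+* ℚ_[p])) →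
      (∀ i, ∀ p : ℕ, p.Prime → ¬ p ∣ D → (M : ℤ) ∣ (p : ℤ) - β →
        Nat.card {z : ZMod p × ZMod p // z.2 ^ 2 = z.1 ^ 3 + a i * z.1 + b i} = p) →
      WindowsFree (fun c : Idx r m d → ℤ => HasPointD K a b c)
        ((∑ i : Fin d, (((i.1 + 1) * m : ℕ) : ℝ) ^ r) - 1 / 5)) ∧
    -- unconditional instance: `K = ℚ` or a real quadratic field, curves of `j`-invariant `0`, `1728`
    (∀ (K : Type) [Field K] [NumberField K] (k : ℕ) (ϑ : K), 0 < k → ϑ ^ 2 = (k : K) →
      IntermediateField.adjoin ℚ {ϑ} = ⊤ → ∀ (r m d : ℕ), 1 ≤ r → 2 ≤ m → 2 ≤ d →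
      ∀ (a b : Fin r → ℤ), (∀ i, a i * b i = 0 ∧ (a i ≠ 0 ∨ b i ≠ 0)) →
      WindowsFree (fun c : Idx r m d → ℤ => HasPointD K a b c)
        ((∑ i : Fin d, (((i.1 + 1) * m : ℕ) : ℝ) ^ r) - 1 / 5)) ∧
    -- the number of coefficients
    (∀ r m d : ℕ, 1 ≤ m →
      (Fintype.card (Idx r m d) : ℝ) = ∑ i : Fin d, (((i.1 + 1) * m : ℕ) : ℝ) ^ r) ∧
    -- the sequences
    (∀ x : ℝ, 1 < x → ExpLe (fun n : ℕ => x ^ n) 0) ∧
    (∀ κ : ℝ, 0 < κ → ExpLe (fun n : ℕ => ((n : ℝ) + 1) ^ κ) (1 / κ)) := by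
  have hcard : ∀ r m d : ℕ, 1 ≤ m →
      (Fintype.card (Idx r m d) : ℝ) = ∑ i : Fin d, (((i.1 + 1) * m : ℕ) : ℝ) ^ r :=
    AlmostAllCovers.result.2.2
  have hone : ∀ r m d : ℕ, 2 ≤ m → 2 ≤ d → (1 : ℝ) ≤ ∑ i : Fin d, (((i.1 + 1) * m : ℕ) : ℝ) ^ r := by
    intro r m d hm hd
    have h1 : ∀ i ∈ (Finset.univ : Finset (Fin d)), (1 : ℝ) ≤ (((i.1 + 1) * m : ℕ) : ℝ) ^ r := by
      intro i _
      apply one_le_pow₀
      have : 1 ≤ (i.1 + 1) * m := Nat.one_le_iff_ne_zero.2 (by positivity)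
      exact_mod_cast this
    have h2 := Finset.sum_le_sum h1
    rw [Finset.sum_const, Finset.card_univ, Fintype.card_fin, nsmul_eq_mul, mul_one] at h2
    have h3 : (1 : ℝ) ≤ d := by
      have : 1 ≤ d := by omega
      exact_mod_cast this
    linarith
  have key : ∀ (K : Type) [Field K] [NumberField K] (r m d : ℕ), 2 ≤ m → 2 ≤ d → ∀ (a b : Fin r → ℤ),
      (∀ ε : ℝ, 0 < ε → ∃ C : ℝ, ∀ H : ℕ, 1 ≤ H →
        (Nat.card {c : Idx r m d → ℤ // (∀ s, |c s| ≤ H) ∧ HasPointD K a b c} : ℝ) ≤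
          C * (H : ℝ) ^ ((∑ i : Fin d, (((i.1 + 1) * m : ℕ) : ℝ) ^ r) - 1 / 5 + ε)) →
      WindowsFree (fun c : Idx r m d → ℤ => HasPointD K a b c)
        ((∑ i : Fin d, (((i.1 + 1) * m : ℕ) : ℝ) ^ r) - 1 / 5) := by
    intro K _ _ r m d hm hd a b h
    haveI : Nonempty (Idx r m d) := by
      rw [← Fintype.card_pos_iff]
      have h1 := hone r m d hm hd
      rw [← hcard r m d (by omega)] at h1
      have h2 : 1 ≤ Fintype.card (Idx r m d) := by exact_mod_cast h1
      omega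
    exact windows_of_box (by linarith [hone r m d hm hd]) h
  refine ⟨?_, ?_, hcard, fun x hx => expLe_geom x hx, fun κ hκ => expLe_pow κ hκ⟩
  · intro K _ _ r m d hr hm hd a b M D β hM hD hβ h1 h2 h3
    exact key K r m d hm hd a b fun ε hε =>
      AlmostAllCovers.result.1 K r m d hr hm hd a b M D β hM hD hβ h1 h2 h3 ε hε
  · intro K _ _ k ϑ hk h1 h2 r m d hr hm hd a b hab
    exact key K r m d hm hd a b fun ε hε =>
      AlmostAllCovers.result.2.1 K k ϑ hk h1 h2 r m d hr hm hd a b hab ε hε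

end Pool.Agent.Results.MP_627a61_nt.WindowsOfCovers
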